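import Mathlib
import Pool.Agent.H.MP_c8e566_gt.B

set_option autoImplicit false

namespace Pool.Agent.Results.MP_c563c8_gt.CH

open Set Cardinal Pool.Agent.H.MP_c8e566_gt

theorem result (ch : continuum = (aleph 1 : Cardinal.{0})) :
    ∃ X Y : Set ℝ, Y ⊆ X ∧ S1 (BOm X) (BOm X) ∧ Sfin (BOm X) (BOm X) ∧
      ¬ S1 (BOm Y) (BOm Y) ∧ ¬ Sfin (BOm Y) (BOm Y) := by
  obtain ⟨X, Y, h, h1, -, h2⟩ := key ch
  exact ⟨X, Y, h, h1.mono ga_om, (h1.mono ga_om).fin, fun h => h2 h.fin, h2⟩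

end Pool.Agent.Results.MP_c563c8_gt.CH
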